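import Pool.Agent.D0H66.MExtTop

/-!
# `m`-completions are not always smallest `(J, M, m)`-extensions

For every infinite cardinal `m` there is a Boolean algebra `A` with an `m`-completion such that for
*all* admissible classes `J` and `M` (for instance if they consist of all subsets of `A` of
cardinality at most `m` with a join, resp. a meet) no `m`-completion of `A` is a smallest
`(J, M, m)`-extension; the class of all `(J, M, m)`-extensions has no smallest element.

Construction. Let `Λ` be a set of cardinality `m⁺` and let `T` be the set of all finite sequences
`v = ((s_0, ξ_0), ..., (s_{k-1}, ξ_{k-1}))` with `s_i` in `2^{<ω}` and `ξ_i` in `Λ`. The points are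
the pairs `(v, x)` with `v` in `T` and `x` in `(2^ω)^ω`; the `i`-th real of `(v, x)` is
`s_i 0 0 0 ...` if `i < k` and it is `x_i` if `k ≤ i`. The algebra `A` consists of the sets of points
which depend only on finitely many of the truth values of (`v` extends `u`), `u` in `T`, and on
finitely many digits of the reals. Map `a` in `A` to the family of the sets `{x : (v, x) ∈ a}`, `v` in `T`, of
clopen subsets of `(2^ω)^ω`, in the product of the algebras of regular open sets. A pigeonhole
argument with the labels `ξ` shows that this map preserves all existing joins of at most `m`
elements of `A`. For `i`, `s`, `n` let `c i s n` in `A` be the set of the points whose `i`-th real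
has the same `n`-th digit as `s 0 0 0 ...`. The meet over `i` of the joins over `s` of the meets
over `n` of the `c i s n` is zero in the product, but it is one in every `m`-completion of `A`.
-/

set_option autoImplicit false

universe u

namespace Pool.Agent.Results.MP_69a01b_lc.NoSmallestExtension

open Cardinal Pool.Agent.D0H66.MExt

/-- For every infinite cardinal `m` there is a Boolean algebra `A` which has an `m`-completion, but
for all admissible `J` and `M` no `m`-completion of `A` is a smallest element of the class of the
`(J, M, m)`-extensions of `A`, although it belongs to this class; in fact this class has no smallest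
element. -/
theorem result : ∀ m : Cardinal.{u}, ℵ₀ ≤ m → ∃ (A : Type u) (_ : BooleanAlgebra A),
    (∃ E : Pair A, IsCompletion m E) ∧ ∀ J M : Set (Set A), Admissible m J M →
      (∀ E : Pair A, IsCompletion m E → IsExtension m J M E ∧ ¬ IsSmallest m J M E) ∧
      ¬ ∃ E : Pair A, IsSmallest m J M E :=
  fun _ hm => main hm

end Pool.Agent.Results.MP_69a01b_lc.NoSmallestExtension
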